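import Pool.Agent.Helper70.RN.Sheet

/-! # Row CERT of `Pool.Agent.Helper70.RN.Sheet` -/

set_option autoImplicit false

namespace Pool.Helper70.RN

open Pool.Agent.Helper97.RK (cur)
open Pool.Helper70.RT (ST_RANKQ)

namespace S44

section
variable {R S : Type*} [CommRing R] [CommRing S]

/-- `px` over any ring -/
def gx (u : Fin 4 → R) (z : R) (j : Fin 9) : R :=
  if h : (j : ℕ) < 7 then
    3 * xN u z (xx u ⟨j, by omega⟩) 1 (yv u (z ^ 2) (xx u ⟨j, by omega⟩))
  else if (j : ℕ) = 7 then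
    3 * (3 * q3 u ^ 2 - 8 * q4 (z ^ 2) * q2 u (z ^ 2))
  else
    3 * xN u z (z - cc u) (4 * u 0) (wv u (z - cc u))

/-- `pv` over any ring -/
def gv (u : Fin 4 → R) (z : R) (j : Fin 9) : R :=
  if (j : ℕ) < 7 then 6 else if (j : ℕ) = 7 then 24 * z else 24 * u 0

variable (f : R →+* S) (u : Fin 4 → R)

theorem map_xx (i : Fin 8) : f (xx u i) = xx (fun k => f (u k)) i := by
  fin_cases i <;> simp [xx, map_ofNat]

theorem map_n1 : f (n1 u) = n1 (fun k => f (u k)) := by
  simp only [n1, map_add, map_mul, map_pow, map_ofNat]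

theorem map_n2 : f (n2 u) = n2 (fun k => f (u k)) := by
  simp only [n2, map_add, map_mul, map_pow, map_ofNat]

theorem map_m1 : f (m1 u) = m1 (fun k => f (u k)) := by
  simp only [m1, map_add, map_mul, map_pow, map_ofNat]

theorem map_m2 : f (m2 u) = m2 (fun k => f (u k)) := by
  simp only [m2, map_add, map_mul, map_pow, map_ofNat]

theorem map_pr : f (pr u) = pr (fun k => f (u k)) := by
  simp only [pr, map_mul, map_ofNat]

theorem map_cc : f (cc u) = cc (fun k => f (u k)) := by
  simp only [cc, map_sub, map_n1, map_n2]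

theorem map_e2 : f (e2 u) = e2 (fun k => f (u k)) := by
  simp only [e2, map_sub, map_add, map_mul, map_pow, map_neg, map_ofNat, map_n1, map_n2]

theorem map_e3 : f (e3 u) = e3 (fun k => f (u k)) := by
  simp only [e3, map_add, map_mul, map_ofNat, map_cc, map_pr]

theorem map_g0 : f (g0 u) = g0 (fun k => f (u k)) := by
  simp only [g0, map_sub, map_add, map_mul, map_pow, map_ofNat, map_n1, map_n2, map_m1, map_m2]

theorem map_l1 : f (l1 u) = l1 (fun k => f (u k)) := by
  simp only [l1, map_sub, map_add, map_mul, map_pow, map_ofNat, map_n1, map_n2]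

theorem map_d0 : f (d0 u) = d0 (fun k => f (u k)) := by
  simp only [d0, map_sub, map_add, map_mul, map_pow, map_neg, map_ofNat, map_n1, map_n2, map_m1,
    map_m2, map_cc, map_pr]

theorem map_h3 : f (h3 u) = h3 (fun k => f (u k)) := by
  simp only [h3, map_sub, map_add, map_mul, map_pow, map_neg, map_ofNat, map_d0, map_cc, map_l1,
    map_e2, map_e3]

theorem map_h2 : f (h2 u) = h2 (fun k => f (u k)) := by
  simp only [h2, map_sub, map_add, map_mul, map_pow, map_ofNat, map_d0, map_cc, map_l1,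
    map_e2, map_e3, map_g0]

theorem map_q3 : f (q3 u) = q3 (fun k => f (u k)) := map_h3 f u

theorem map_q2 (t : R) : f (q2 u t) = q2 (fun k => f (u k)) (f t) := by
  simp only [q2, map_add, map_mul, map_ofNat, map_e2, map_h2]

theorem map_q4 (t : R) : f (q4 t) = q4 (f t) := by
  simp only [q4, map_mul, map_ofNat]

theorem map_xN (z η ζ w : R) :
    f (xN u z η ζ w) = xN (fun k => f (u k)) (f z) (f η) (f ζ) (f w) := by
  simp only [xN, map_add, map_mul, map_pow, map_ofNat, map_q4, map_q3, map_q2]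

theorem map_yv (t x : R) : f (yv u t x) = yv (fun k => f (u k)) (f t) (f x) := by
  simp only [yv, map_add, map_sub, map_mul, map_pow, map_ofNat, map_e2, map_e3, map_g0]

theorem map_wv (η : R) : f (wv u η) = wv (fun k => f (u k)) (f η) := by
  simp only [wv, map_add, map_sub, map_mul, map_pow, map_neg, map_ofNat, map_cc, map_l1, map_d0]

theorem map_gx (z : R) (j : Fin 9) :
    f (gx u z j) = gx (fun k => f (u k)) (f z) j := by
  unfold gx
  split_ifs
  · rw [map_mul, map_ofNat, map_xN, map_yv, map_pow, map_xx, map_one]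
  · simp only [map_mul, map_sub, map_pow, map_ofNat, map_q4, map_q3, map_q2]
  · simp only [map_mul, map_sub, map_ofNat, map_xN, map_wv, map_cc]

theorem map_gv (z : R) (j : Fin 9) :
    f (gv u z j) = gv (fun k => f (u k)) (f z) j := by
  unfold gv
  split_ifs
  · rw [map_ofNat]
  · rw [map_mul, map_ofNat]
  · rw [map_mul, map_ofNat]

end

/-- the numerators at the base -/
def PX : Fin 9 → ℤ := ![68334588, 87260508, -23187492, 77804028, 196844508, -15058692, 71737308,
  308826316800, -2298915072]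

/-- the denominators at the base -/
def PV : Fin 9 → ℤ := ![6, 6, 6, 6, 6, 6, 6, 360, 24]

theorem gx_val (j : Fin 9) : gx ub 15 j = PX j := by
  revert j
  decide +kernel

theorem gv_val (j : Fin 9) : gv ub 15 j = PV j := by
  revert j
  decide +kernel

theorem QQ_ge {q : ℕ} (h : q ≤ 10000000) : q ≤ QQ := by
  unfold QQ
  omega

theorem dvdM {q : ℕ} (hq : q.Prime) (hq1 : q ≤ QQ) : (q : ℤ) ∣ ((QQ.factorial : ℕ) : ℤ) := by
  exact_mod_cast Nat.dvd_factorial hq.pos hq1

theorem castw {w : Par} (h : Cong w) {q : ℕ} (hq : q.Prime) (hq1 : q ≤ QQ) :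
    (fun i => Int.castRingHom (ZMod q) (w.1 i)) = (fun i => Int.castRingHom (ZMod q) (ub i)) ∧
    Int.castRingHom (ZMod q) w.2 = Int.castRingHom (ZMod q) 15 := by
  have hM : (q : ℤ) ∣ MM := by
    unfold MM
    exact (dvdM hq hq1).mul_left _
  have key : ∀ a b : ℤ, MM ∣ a - b → Int.castRingHom (ZMod q) a = Int.castRingHom (ZMod q) b := by
    intro a b hab
    rw [← sub_eq_zero, ← map_sub]
    exact (ZMod.intCast_zmod_eq_zero_iff_dvd _ q).2 (hM.trans hab)
  exact ⟨funext fun i => key _ _ (h.1 i), key _ _ h.2⟩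

theorem px_cast {w : Par} (h : Cong w) {q : ℕ} (hq : q.Prime) (hq1 : q ≤ QQ) (j : Fin 9) :
    ((px w j : ℤ) : ZMod q) = ((PX j : ℤ) : ZMod q) := by
  have e1 : px w j = gx w.1 w.2 j := rfl
  rw [← gx_val, e1]
  have h1 := map_gx (Int.castRingHom (ZMod q)) w.1 w.2 j
  have h2 := map_gx (Int.castRingHom (ZMod q)) ub 15 j
  obtain ⟨c1, c2⟩ := castw h hq hq1
  rw [c1, c2, ← h2] at h1
  exact h1

theorem pv_cast {w : Par} (h : Cong w) {q : ℕ} (hq : q.Prime) (hq1 : q ≤ QQ) (j : Fin 9) :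
    ((pv w j : ℤ) : ZMod q) = ((PV j : ℤ) : ZMod q) := by
  have e1 : pv w j = gv w.1 w.2 j := rfl
  rw [← gv_val, e1]
  have h1 := map_gv (Int.castRingHom (ZMod q)) w.1 w.2 j
  have h2 := map_gv (Int.castRingHom (ZMod q)) ub 15 j
  obtain ⟨c1, c2⟩ := castw h hq hq1
  rw [c1, c2, ← h2] at h1
  exact h1

/-- the signs -/
def E : Fin 9 → Fin 9 → ℤ :=
  ![![1, -1, -1, -1, 1, -1, -1, 1, 1], ![1, 1, -1, -1, 1, 1, 1, -1, -1],
    ![-1, 1, 1, 1, -1, -1, 1, 1, 1], ![-1, 1, 1, 1, -1, -1, -1, -1, -1],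
    ![-1, -1, -1, 1, -1, -1, 1, 1, -1], ![1, -1, 1, 1, -1, -1, -1, 1, 1],
    ![-1, 1, 1, -1, -1, 1, -1, -1, -1], ![-1, -1, 1, -1, 1, 1, 1, 1, 1],
    ![1, 1, -1, -1, -1, -1, 1, 1, 1]]

/-- the characters are independent -/
theorem dec9 : ∀ S : Finset (Fin 9), S.Nonempty → ∃ c : Fin 9, ∏ i ∈ S, E c i = -1 := by
  decide +kernel

theorem nsq (q : ℕ) (hq : q.Prime) (hq2 : 2 < q) (x : Fin 9 → ZMod q) (ε : Fin 9 → ℤ)
    (hx : ∀ i, x i ^ ((q - 1) / 2) = ((ε i : ℤ) : ZMod q)) (S : Finset (Fin 9))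
    (hS : ∏ i ∈ S, ε i = -1) : ¬ IsSquare (∏ i ∈ S, x i) := by
  have : Fact q.Prime := ⟨hq⟩
  have : Fact (2 < q) := ⟨hq2⟩
  rintro ⟨r, hr⟩
  have h1 : (∏ i ∈ S, x i) ^ ((q - 1) / 2) = -1 := by
    rw [← Finset.prod_pow, Finset.prod_congr rfl (fun i _ => hx i), ← Int.cast_prod, hS]
    simp
  have hodd := hq.eq_two_or_odd'
  rcases hodd with h | h
  · omega
  · have h2 : 2 * ((q - 1) / 2) = q - 1 := by
      obtain ⟨k, hk⟩ := h
      omega
    rw [hr, ← sq, ← pow_mul, h2] at h1
    by_cases h0 : r = 0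
    · rw [h0, zero_pow (by omega)] at h1
      have : (1 : ZMod q) = 0 := by
        have := congrArg Neg.neg h1
        simpa using this.symm
      exact one_ne_zero this
    · rw [ZMod.pow_card_sub_one_eq_one h0] at h1
      exact ZMod.neg_one_ne_one h1.symm

theorem castAB {a b : ℤ} {q : ℕ} (hq : q.Prime) (hq1 : q ≤ QQ)
    (h : ((QQ.factorial : ℕ) : ℤ) ∣ a - b) : (a : ZMod q) = (b : ZMod q) := by
  rw [← sub_eq_zero, ← Int.cast_sub]
  exact (ZMod.intCast_zmod_eq_zero_iff_dvd _ q).2 ((dvdM hq hq1).trans h)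

theorem noroot (t : ZMod 13) :
    t ^ 3 + ((-12412515182977 : ℤ) : ZMod 13) * t +
      ((16884929563994163904 : ℤ) : ZMod 13) ≠ 0 := by
  revert t
  decide +kernel

theorem step {w : Par} (h : Cong w)
    (hA : ((QQ.factorial : ℕ) : ℤ) ∣ cA w - (-12412515182977))
    (hB : ((QQ.factorial : ℕ) : ℤ) ∣ cB w - 16884929563994163904)
    (S : Finset (Fin 9)) (q : ℕ) (e : ℤ) (ε : Fin 9 → ℤ) (hq : q.Prime) (hq1 : q ≤ 10000000)
    (hq2 : 2 < q)
    (h1 : ((e ^ 3 + (-12412515182977) * e + 16884929563994163904 : ℤ) :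
      ZMod q) = 0)
    (h2 : ((3 * e ^ 2 + (-12412515182977) : ℤ) : ZMod q) ≠ 0)
    (hx : ∀ i, ((PX i - e * PV i ^ 2 : ℤ) : ZMod q) ^ ((q - 1) / 2) = ((ε i : ℤ) : ZMod q))
    (hS : ∏ i ∈ S, ε i = -1) :
    ∃ (q : ℕ) (e : ℤ), q.Prime ∧
      ((e ^ 3 + cA w * e + cB w : ℤ) : ZMod q) = 0 ∧ ((3 * e ^ 2 + cA w : ℤ) : ZMod q) ≠ 0 ∧
      ¬ IsSquare (∏ i ∈ S, ((px w i - e * pv w i ^ 2 : ℤ) : ZMod q)) := by
  have hq1' : q ≤ QQ := QQ_ge hq1
  have cA' := castAB hq hq1' hA
  have cB' := castAB hq hq1' hB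
  have h3 := nsq q hq hq2 (fun i => ((PX i - e * PV i ^ 2 : ℤ) : ZMod q)) ε hx S hS
  refine ⟨q, e, hq, ?_, ?_, ?_⟩
  · rw [← h1]
    simp only [Int.cast_add, Int.cast_mul, Int.cast_pow]
    rw [cA', cB']
  · intro h4
    apply h2
    rw [← h4]
    simp only [Int.cast_add, Int.cast_mul, Int.cast_pow]
    rw [cA']
  · intro h4
    apply h3
    refine (congrArg IsSquare ?_).mp h4
    apply Finset.prod_congr rfl
    intro i _
    simp only [Int.cast_sub, Int.cast_mul, Int.cast_pow]
    rw [px_cast h hq hq1' i, pv_cast h hq hq1' i]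

end S44

open S44 in
/-- row CERT -/
theorem st_CERT (hREL : ST_REL) (hPTS : ST_PTS) (hR : ST_RANKQ) : ST_CERT := by
  intro w hw
  obtain ⟨-, -, hA0, hB⟩ := hREL w hw
  have hA : ((QQ.factorial : ℕ) : ℤ) ∣ cA w - (-12412515182977) := by
    rw [sub_neg_eq_add]
    exact hA0
  have hdisc : 4 * cA w ^ 3 + 27 * cB w ^ 2 ≠ 0 := by
    intro h
    have h3 := congrArg (fun z : ℤ => (z : ZMod 13)) h
    simp only [Int.cast_add, Int.cast_mul, Int.cast_pow] at h3
    rw [castAB (by norm_num) (QQ_ge (by norm_num)) hA,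
      castAB (by norm_num) (QQ_ge (by norm_num)) hB] at h3
    revert h3
    decide
  refine ⟨hdisc, ?_, ?_⟩
  · intro q hq hq1 hdv
    obtain ⟨ha, hb⟩ := hdv
    have hqM := dvdM hq hq1
    have ha' : (q : ℤ) ∣ -12412515182977 :=
      (dvd_sub_right ha).1 (hqM.trans hA)
    have hb' : (q : ℤ) ∣ 16884929563994163904 :=
      (dvd_sub_right hb).1 (hqM.trans hB)
    have h1' : (q : ℤ) ∣ 1 := by
      have e2 : IsCoprime (-12412515182977 : ℤ) 16884929563994163904 := by
        rw [Int.isCoprime_iff_gcd_eq_one]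
        norm_num
      obtain ⟨a, b, hab⟩ := e2
      rw [← hab]
      exact dvd_add (ha'.mul_left a) (hb'.mul_left b)
    have h2' : q ∣ 1 := by exact_mod_cast h1'
    exact hq.one_lt.ne' (Nat.dvd_one.1 h2')
  · refine hR 9 _ _ (px w) (pv w) (fun i => (hPTS w hw i).1) (fun i => (hPTS w hw i).2) hdisc 13
      ?_ ?_
    · intro t
      rw [castAB (by norm_num) (QQ_ge (by norm_num)) hA,
        castAB (by norm_num) (QQ_ge (by norm_num)) hB]
      exact noroot t
    · intro S hS
      obtain ⟨c, hc⟩ := dec9 S hS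
      have st := fun (q : ℕ) (e : ℤ) => step hw hA hB S q e (E c)
      fin_cases c
      · exact st 7 3 (by norm_num) (by norm_num) (by norm_num) (by decide +kernel)
          (by decide +kernel) (by decide +kernel) hc
      · exact st 7 5 (by norm_num) (by norm_num) (by norm_num) (by decide +kernel)
          (by decide +kernel) (by decide +kernel) hc
      · exact st 11 4 (by norm_num) (by norm_num) (by norm_num) (by decide +kernel)
          (by decide +kernel) (by decide +kernel) hc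
      · exact st 17 0 (by norm_num) (by norm_num) (by norm_num) (by decide +kernel)
          (by decide +kernel) (by decide +kernel) hc
      · exact st 19 4 (by norm_num) (by norm_num) (by norm_num) (by decide +kernel)
          (by decide +kernel) (by decide +kernel) hc
      · exact st 23 10 (by norm_num) (by norm_num) (by norm_num) (by decide +kernel)
          (by decide +kernel) (by decide +kernel) hc
      · exact st 29 0 (by norm_num) (by norm_num) (by norm_num) (by decide +kernel)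
          (by decide +kernel) (by decide +kernel) hc
      · exact st 29 6 (by norm_num) (by norm_num) (by norm_num) (by decide +kernel)
          (by decide +kernel) (by decide +kernel) hc
      · exact st 37 30 (by norm_num) (by norm_num) (by norm_num) (by decide +kernel)
          (by decide +kernel) (by decide +kernel) hc

end Pool.Helper70.RN
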